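import Pool.Agent.Mg.F02ff8e.G4f745a

open Pool.Agent.MP_c6cf52_lc Pool.Agent.MP_02ff8e_lc

theorem Pool.Agent.Results.MP_02ff8e_lc.Partition.result :
    ∃ (M : Type 1) (E : M → M → Prop), IsZFC E ∧
      ∃ w w1 w2 w3 P b R add mul lt F Y : M,
        IsOmega E w ∧ IsSucc E w w1 ∧ IsSucc E w1 w2 ∧ IsSucc E w2 w3 ∧
        (∀ x, E x P ↔ ∀ y, E y x → E y w) ∧ IsBij E b w3 P ∧
        IsReals E R add mul lt ∧ IsFun E F w2 Y ∧
        (∀ i A, App E F i A → IsSemigroup E add A ∧ IsFsigma E w R lt A) ∧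
        (∀ i j A B, App E F i A → App E F j B → i ≠ j → ∀ x, ¬ (E x A ∧ E x B)) ∧
        ∀ x, E x R → ∃ i A, App E F i A ∧ E x A :=
  Pool.Agent.MP_02ff8e_lc.main
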